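import Mathlib

set_option autoImplicit false

/-!
Polynomials with prescribed order of vanishing, reversal of exponents, over any field
(generalised from Pool.Agent.H689R3.WeylGeomA/B).
-/

namespace Pool.Agent.W609.CR

open Finset MvPolynomial

variable {K : Type} [Field K] {n : ℕ}


/-- translation of variables -/
noncomputable def shift (v : Fin (n + 1) → K) :
    MvPolynomial (Fin (n + 1)) K →ₐ[K] MvPolynomial (Fin (n + 1)) K :=
  aeval (fun l => X l + C (v l))

lemma shift_shift (v : Fin (n + 1) → K) (f : MvPolynomial (Fin (n + 1)) K) :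
    shift (-v) (shift v f) = f := by
  have h : (shift (-v)).comp (shift v) = AlgHom.id K _ := by
    apply MvPolynomial.algHom_ext
    intro i
    simp [shift]
  exact DFunLike.congr_fun h f

lemma ker_eval_zero : RingHom.ker (MvPolynomial.eval (0 : Fin (n + 1) → K)) =
    idealOfVars (Fin (n + 1)) K := by
  ext f
  rw [RingHom.mem_ker]
  have h := mem_pow_idealOfVars_iff' (σ := Fin (n + 1)) (R := K) 1 f
  rw [pow_one] at h
  rw [h]
  constructor
  · intro h0 x hx
    have : x = 0 := by
      have : x.degree = 0 := by omega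
      exact (Finsupp.degree_eq_zero_iff x).1 this
    rw [this]
    rw [← constantCoeff_eq, ← eval_zero] at *
    exact h0
  · intro h0
    have := h0 0 (by simp)
    rw [← constantCoeff_eq, ← eval_zero] at this
    exact this

lemma shift_mem (v : Fin (n + 1) → K) (w : Fin (n + 1) → K) (m : ℕ)
    (f : MvPolynomial (Fin (n + 1)) K)
    (hf : f ∈ (RingHom.ker (MvPolynomial.eval (v + w))) ^ m) :
    shift v f ∈ (RingHom.ker (MvPolynomial.eval w)) ^ m := by
  have h1 : Ideal.map (shift v) (RingHom.ker (MvPolynomial.eval (v + w))) ≤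
      RingHom.ker (MvPolynomial.eval w) := by
    rw [Ideal.map_le_iff_le_comap]
    intro g hg
    rw [Ideal.mem_comap, RingHom.mem_ker]
    rw [RingHom.mem_ker] at hg
    have h2 : (MvPolynomial.eval w) (shift v g) = MvPolynomial.eval (v + w) g := by
      have : ((MvPolynomial.eval w).comp (shift v).toRingHom) = MvPolynomial.eval (v + w) := by
        apply MvPolynomial.ringHom_ext
        · intro r; simp [shift]
        · intro i; simp [shift, add_comm]
      exact DFunLike.congr_fun this g
    rw [h2, hg]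
  have h3 := Ideal.mem_map_of_mem (shift v) hf
  rw [Ideal.map_pow] at h3
  exact Ideal.pow_right_mono h1 m h3

lemma mem_ker_pow_iff (v : Fin (n + 1) → K) (m : ℕ) (f : MvPolynomial (Fin (n + 1)) K) :
    f ∈ (RingHom.ker (MvPolynomial.eval v)) ^ m ↔
      ∀ b : Fin (n + 1) →₀ ℕ, b.degree < m → coeff b (shift v f) = 0 := by
  rw [← mem_pow_idealOfVars_iff', ← ker_eval_zero]
  constructor
  · intro h
    apply shift_mem
    simpa using h
  · intro h
    have := shift_mem (-v) v m (shift v f) (by simpa using h)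
    rwa [shift_shift] at this

/-- coordinate points -/
def bas (i : Fin (n + 1)) : Fin (n + 1) → K := Pi.single i 1

lemma homog_degree {d : ℕ} {f : MvPolynomial (Fin (n + 1)) K} (hf : f.IsHomogeneous d)
    {a : Fin (n + 1) →₀ ℕ} (ha : a ∈ f.support) : a.degree = d := by
  have := hf (mem_support_iff.1 ha)
  rw [← this]
  simp [Finsupp.weight_apply, Finsupp.degree_eq_sum, Finsupp.sum_fintype]

/-- multiplicity at a coordinate point bounds exponents -/
lemma exponent_le {d m : ℕ} {f : MvPolynomial (Fin (n + 1)) K} (hf : f.IsHomogeneous d)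
    (i : Fin (n + 1)) (hm : f ∈ (RingHom.ker (MvPolynomial.eval (bas i))) ^ m)
    {a : Fin (n + 1) →₀ ℕ} (ha : a ∈ f.support) : a i + m ≤ d := by
  classical
  by_contra hlt
  push Not at hlt
  let ψ : MvPolynomial (Fin (n + 1)) K →ₐ[K] MvPolynomial (Fin (n + 1)) K :=
    aeval (fun l => if l = i then 1 else X l)
  have h1 : Ideal.map ψ (RingHom.ker (MvPolynomial.eval (bas i))) ≤
      idealOfVars (Fin (n + 1)) K := by
    rw [← ker_eval_zero, Ideal.map_le_iff_le_comap]
    intro g hg
    rw [Ideal.mem_comap, RingHom.mem_ker]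
    rw [RingHom.mem_ker] at hg
    have h2 : (MvPolynomial.eval 0) (ψ g) = MvPolynomial.eval (bas i) g := by
      have : ((MvPolynomial.eval 0).comp ψ.toRingHom) = MvPolynomial.eval (bas i) := by
        apply MvPolynomial.ringHom_ext
        · intro r; simp [ψ]
        · intro l
          by_cases hl : l = i
          · subst hl; simp [ψ, bas]
          · simp [ψ, bas, hl]
      exact DFunLike.congr_fun this g
    rw [h2, hg]
  have h3 := Ideal.mem_map_of_mem ψ hm
  rw [Ideal.map_pow] at h3
  have h4 := Ideal.pow_right_mono h1 m h3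
  rw [mem_pow_idealOfVars_iff'] at h4
  have hdeg := homog_degree hf ha
  have hsplit : ∀ b : Fin (n + 1) →₀ ℕ, (b.erase i).degree + b i = b.degree := by
    intro b
    rw [Finsupp.degree_eq_sum, Finsupp.degree_eq_sum, ← Finset.add_sum_erase _ _ (mem_univ i),
      ← Finset.add_sum_erase _ (fun l => b l) (mem_univ i), Finsupp.erase_same, zero_add, add_comm]
    congr 1
    refine Finset.sum_congr rfl fun l hl => ?_
    rw [Finsupp.erase_ne (Finset.ne_of_mem_erase hl)]
  have h5 := h4 (a.erase i) (by have := hsplit a; omega)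
  -- compute the coefficient
  have h6 : ∀ (b : Fin (n + 1) →₀ ℕ) (c : K), ψ (monomial b c) = monomial (b.erase i) c := by
    intro b c
    rw [aeval_monomial, Finsupp.prod_fintype _ _ (by intro; simp)]
    rw [monomial_eq, Finsupp.prod_fintype _ _ (by intro; simp)]
    congr 1
    refine Finset.prod_congr rfl fun l _ => ?_
    by_cases hl : l = i
    · subst hl; simp
    · simp [hl]
  have h7 : ψ f = ∑ b ∈ f.support, monomial (b.erase i) (coeff b f) := by
    conv_lhs => rw [← f.support_sum_monomial_coeff]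
    rw [map_sum]
    exact Finset.sum_congr rfl fun b _ => h6 b _
  rw [h7, coeff_sum] at h5
  rw [Finset.sum_eq_single a] at h5
  · rw [coeff_monomial, if_pos rfl] at h5
    exact (mem_support_iff.1 ha) h5
  · intro b hb hba
    rw [coeff_monomial, if_neg]
    intro heq
    apply hba
    have h8 := hsplit a
    have h9 := hsplit b
    have h10 := homog_degree hf hb
    rw [heq] at h9
    have h11 : b i = a i := by omega
    ext l
    by_cases hl : l = i
    · subst hl; exact h11
    · have := DFunLike.congr_fun heq l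
      rwa [Finsupp.erase_ne hl, Finsupp.erase_ne hl] at this
  · intro h; exact absurd ha h

/-- bounds on exponents give multiplicity at a coordinate point -/
lemma mem_of_exponents {m : ℕ} {f : MvPolynomial (Fin (n + 1)) K} (i : Fin (n + 1))
    (h : ∀ a ∈ f.support, m ≤ ∑ l ∈ univ.erase i, a l) :
    f ∈ (RingHom.ker (MvPolynomial.eval (bas i))) ^ m := by
  classical
  rw [← f.support_sum_monomial_coeff]
  refine Ideal.sum_mem _ fun a ha => ?_
  rw [monomial_eq]
  refine Ideal.mul_mem_left _ _ ?_
  rw [Finsupp.prod_fintype _ _ (by intro; simp), ← Finset.mul_prod_erase _ _ (mem_univ i)]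
  refine Ideal.mul_mem_left _ _ ?_
  have h1 : ∏ l ∈ univ.erase i, (X l : MvPolynomial (Fin (n + 1)) K) ^ a l ∈
      (RingHom.ker (MvPolynomial.eval (bas i))) ^ (∑ l ∈ univ.erase i, a l) := by
    rw [← Finset.prod_pow_eq_pow_sum]
    refine Ideal.prod_mem_prod fun l hl => ?_
    refine Ideal.pow_mem_pow ?_ _
    rw [RingHom.mem_ker]
    simp [bas, Finset.ne_of_mem_erase hl]
  exact Ideal.pow_le_pow_right (h a ha) h1



/-- the reversed polynomial -/
noncomputable def rev (N : Fin (n + 1) →₀ ℕ) (f : MvPolynomial (Fin (n + 1)) K) :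
    MvPolynomial (Fin (n + 1)) K :=
  ∑ a ∈ f.support, monomial (N - a) (coeff a f)

lemma coeff_rev {N : Fin (n + 1) →₀ ℕ} {f : MvPolynomial (Fin (n + 1)) K}
    (hN : ∀ a ∈ f.support, a ≤ N) {a : Fin (n + 1) →₀ ℕ} (ha : a ∈ f.support) :
    coeff (N - a) (rev N f) = coeff a f := by
  classical
  unfold rev
  rw [coeff_sum, Finset.sum_eq_single a]
  · rw [coeff_monomial, if_pos rfl]
  · intro b hb hba
    rw [coeff_monomial, if_neg]
    intro h
    apply hba
    have h1 := tsub_add_cancel_of_le (hN a ha)
    have h2 := tsub_add_cancel_of_le (hN b hb)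
    rw [h] at h2
    exact add_left_cancel (h2.trans h1.symm)
  · intro h; exact absurd ha h

lemma mem_support_rev {N : Fin (n + 1) →₀ ℕ} {f : MvPolynomial (Fin (n + 1)) K}
    {b : Fin (n + 1) →₀ ℕ} (hb : b ∈ (rev N f).support) : ∃ a ∈ f.support, b = N - a := by
  classical
  unfold rev at hb
  have h := MvPolynomial.support_sum hb
  rw [Finset.mem_biUnion] at h
  obtain ⟨a, ha, hab⟩ := h
  refine ⟨a, ha, ?_⟩
  have := MvPolynomial.support_monomial_subset hab
  simpa using this

lemma rev_ne_zero {N : Fin (n + 1) →₀ ℕ} {f : MvPolynomial (Fin (n + 1)) K}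
    (hN : ∀ a ∈ f.support, a ≤ N) (hf : f ≠ 0) : rev N f ≠ 0 := by
  obtain ⟨a, ha⟩ := MvPolynomial.support_nonempty.2 hf
  intro h0
  have := coeff_rev hN ha
  rw [h0, coeff_zero] at this
  exact (mem_support_iff.1 ha) this.symm

lemma rev_homog {N : Fin (n + 1) →₀ ℕ} {f : MvPolynomial (Fin (n + 1)) K} {d : ℕ}
    (hf : f.IsHomogeneous d) (hN : ∀ a ∈ f.support, a ≤ N) :
    (rev N f).IsHomogeneous (N.degree - d) := by
  unfold rev
  refine MvPolynomial.IsHomogeneous.sum _ _ _ fun a ha => ?_
  apply isHomogeneous_monomial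
  have h1 := tsub_add_cancel_of_le (hN a ha)
  have h2 : (N - a).degree + a.degree = N.degree := by rw [← map_add, h1]
  have h3 := homog_degree hf ha
  omega

/-- multiplicity of the reversed polynomial at the inverse point -/
lemma rev_mem {N : Fin (n + 1) →₀ ℕ} {f : MvPolynomial (Fin (n + 1)) K}
    (hN : ∀ a ∈ f.support, a ≤ N) (v : Fin (n + 1) → K) (hv : ∀ l, v l ≠ 0) (m : ℕ)
    (hf : f ∈ (RingHom.ker (MvPolynomial.eval v)) ^ m) :
    rev N f ∈ (RingHom.ker (MvPolynomial.eval (fun l => (v l)⁻¹))) ^ m := by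
  classical
  rcases Nat.eq_zero_or_pos m with hm | hm
  · subst hm; simp
  set w : Fin (n + 1) → K := fun l => (v l)⁻¹ with hw
  set J := RingHom.ker (MvPolynomial.eval w) with hJ
  let B := MvPolynomial (Fin (n + 1)) K ⧸ J ^ m
  let π : MvPolynomial (Fin (n + 1)) K →ₐ[K] B := Ideal.Quotient.mkₐ K (J ^ m)
  have hπ : ∀ g, π g = 0 ↔ g ∈ J ^ m := by
    intro g
    exact Ideal.Quotient.eq_zero_iff_mem
  have hunit : ∀ l, IsUnit (π (X l)) := by
    intro l
    have h1 : π (X l) = algebraMap K B (w l) + π (X l - C (w l)) := by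
      rw [map_sub]
      have : π (C (w l)) = algebraMap K B (w l) := by
        rw [← MvPolynomial.algebraMap_eq]; exact π.commutes _
      rw [this]; ring
    rw [h1]
    have hnil : IsNilpotent (π (X l - C (w l))) := by
      refine ⟨m, ?_⟩
      rw [← map_pow, hπ]
      apply Ideal.pow_mem_pow
      rw [hJ, RingHom.mem_ker]; simp
    have hu : IsUnit (algebraMap K B (w l)) := by
      apply IsUnit.map
      exact isUnit_iff_ne_zero.2 (by rw [hw]; exact inv_ne_zero (hv l))
    exact hnil.isUnit_add_left_of_commute hu (Commute.all _ _)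
  choose u hu using hunit
  let φ : MvPolynomial (Fin (n + 1)) K →ₐ[K] B := aeval (fun l => ((u l)⁻¹ : Bˣ).1)
  -- residue map
  have hle : J ^ m ≤ RingHom.ker (MvPolynomial.eval w) := Ideal.pow_le_self hm.ne'
  let χ : B →+* K := Ideal.Quotient.lift (J ^ m) (MvPolynomial.eval w) (fun a ha => hle ha)
  have hχπ : ∀ g, χ (π g) = MvPolynomial.eval w g := fun g => Ideal.Quotient.lift_mk _ _ _
  have hχφ : ∀ g, χ (φ g) = MvPolynomial.eval v g := by
    intro g
    have : (χ.comp φ.toRingHom) = MvPolynomial.eval v := by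
      apply MvPolynomial.ringHom_ext
      · intro r
        have h1 : φ (C r) = π (C r) := by
          rw [← MvPolynomial.algebraMap_eq, φ.commutes, π.commutes]
        change χ (φ (C r)) = _
        rw [h1, hχπ]; simp
      · intro l
        change χ (φ (X l)) = _
        have h1 : φ (X l) = ((u l)⁻¹ : Bˣ).1 := by simp [φ]
        rw [h1, eval_X]
        have h2 : χ ((u l)⁻¹ : Bˣ).1 * χ (u l).1 = 1 := by
          rw [← map_mul, Units.inv_mul, map_one]
        rw [hu l, hχπ, eval_X] at h2
        have h3 : w l ≠ 0 := by rw [hw]; exact inv_ne_zero (hv l)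
        have h4 : χ ((u l)⁻¹ : Bˣ).1 = (w l)⁻¹ := eq_inv_of_mul_eq_one_left h2
        rw [h4, hw, inv_inv]
    exact DFunLike.congr_fun this g
  have hkerχ : ∀ b : B, χ b = 0 → b ∈ Ideal.map π J := by
    intro b hb
    obtain ⟨g, rfl⟩ := Ideal.Quotient.mkₐ_surjective K (J ^ m) b
    have : g ∈ J := by
      rw [hJ, RingHom.mem_ker, ← hχπ]; exact hb
    exact Ideal.mem_map_of_mem π this
  have hmapφ : Ideal.map φ (RingHom.ker (MvPolynomial.eval v)) ≤ Ideal.map π J := by
    rw [Ideal.map_le_iff_le_comap]
    intro g hg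
    rw [Ideal.mem_comap]
    apply hkerχ
    rw [hχφ]; exact hg
  have hφf : φ f = 0 := by
    have h1 := Ideal.mem_map_of_mem φ hf
    rw [Ideal.map_pow] at h1
    have h2 := Ideal.pow_right_mono hmapφ m h1
    rw [← Ideal.map_pow] at h2
    have h3 : Ideal.map π (J ^ m) = ⊥ := by
      rw [Ideal.map_eq_bot_iff_le_ker]
      intro g hg
      rw [RingHom.mem_ker]
      exact (hπ g).2 hg
    rw [h3] at h2
    exact h2
  rw [← hπ]
  have hkey : π (rev N f) = (∏ l, π (X l) ^ N l) * φ f := by
    conv_rhs => rw [← f.support_sum_monomial_coeff]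
    unfold rev
    rw [map_sum, map_sum, Finset.mul_sum]
    refine Finset.sum_congr rfl fun a ha => ?_
    have h1 : π (monomial (N - a) (coeff a f)) =
        algebraMap K B (coeff a f) * ∏ l, π (X l) ^ (N l - a l) := by
      rw [monomial_eq, Finsupp.prod_fintype _ _ (by intro; simp), map_mul, map_prod]
      congr 1
    have h2 : φ (monomial a (coeff a f)) =
        algebraMap K B (coeff a f) * ∏ l, ((u l)⁻¹ : Bˣ).1 ^ a l := by
      rw [aeval_monomial, Finsupp.prod_fintype _ _ (by intro; simp)]
    rw [h1, h2]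
    rw [mul_left_comm, ← Finset.prod_mul_distrib]
    congr 1
    refine Finset.prod_congr rfl fun l _ => ?_
    rw [← hu l]
    have h3 : N l = (N l - a l) + a l := (tsub_add_cancel_of_le (hN a ha l)).symm
    conv_rhs => rw [h3, pow_add, mul_assoc, ← mul_pow, Units.mul_inv, one_pow, mul_one]
  rw [hkey, hφf, mul_zero]


end Pool.Agent.W609.CR
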