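import Mathlib
import Pool.Agent.H15.G.R_seed8.W609.CR.All
import Pool.Agent.H15.G.R_seed8.W609.T.Five
import Pool.Agent.H15.G.R_seed8.H248R6.Dim

set_option autoImplicit false

/-!
# Prime divisors on the blow-up of the plane at generic points
-/

namespace Pool.Agent.W609.CR

open MvPolynomial Pool.Agent.H932R2 Pool.Agent.H932R3 Pool.Agent.H932R7

theorem vs_eq_forms {K : Type} [Field K] {s : ℕ} (P : Fin s → Fin 2 → K) (w : Fin s → ℕ) (d : ℕ) :
    VS (fun j => aff (P j)) w d = H248R5.forms w P d := by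
  ext f
  unfold VS H248R5.forms
  rw [Submodule.mem_inf, Submodule.mem_inf, Submodule.restrictScalars_mem,
    Submodule.restrictScalars_mem, Ideal.mem_iInf, Ideal.mem_iInf, mem_homogeneousSubmodule]
  constructor
  · rintro ⟨h1, h2⟩
    exact ⟨h1, fun i => (t_link K (P i) (w i) f d h1).1 (h2 i)⟩
  · rintro ⟨h1, h2⟩
    exact ⟨h1, fun i => (t_link K (P i) (w i) f d h1).2 (h2 i)⟩

theorem vs_perm {K : Type} [Field K] {s : ℕ} (v : Fin s → Fin 3 → K) (w : Fin s → ℕ) (d : ℕ)
    (σ : Equiv.Perm (Fin s)) : VS (fun j => v (σ j)) (fun j => w (σ j)) d = VS v w d := by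
  unfold VS
  congr 2
  exact Equiv.iInf_comp (g := fun j => RingHom.ker (MvPolynomial.eval (v j)) ^ (w j)) σ

theorem vs_mono {K : Type} [Field K] {s : ℕ} (v : Fin s → Fin 3 → K) {w w' : Fin s → ℕ} (d : ℕ)
    (h : ∀ j, w' j ≤ w j) : VS v w d ≤ VS v w' d := by
  unfold VS
  refine inf_le_inf_left _ ?_
  intro f hf
  rw [Submodule.restrictScalars_mem, Ideal.mem_iInf] at hf ⊢
  exact fun j => Ideal.pow_le_pow_right (h j) (hf j)

theorem vs_fin {K : Type} [Field K] {s : ℕ} (v : Fin s → Fin 3 → K) (w : Fin s → ℕ) (d : ℕ) :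
    Module.Finite K ↥(VS v w d) := by
  have hfin : Module.Finite K ↥(homogeneousSubmodule (Fin 3) K d) :=
    Module.Finite.iff_fg.2 (homogeneousSubmodule_fg _ _ d)
  exact Submodule.finiteDimensional_of_le inf_le_left

theorem three_le {r : ℕ} (v : Fin (r + 4) → ℕ)
    (hthree : ∀ g : ℕ → ℕ, g (v 0) + g (v 1) + g (v 2) ≤ ∑ j, g (v j)) :
    ∑ j, v j + (v 0 + 1).choose 2 + (v 1 + 1).choose 2 + (v 2 + 1).choose 2 ≤
      ∑ j, (v j + 1).choose 2 + (v 0 + v 1 + v 2) := by
  have h7 := hthree (fun x => (x + 1).choose 2 - x)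
  have h8 : ∀ x : ℕ, x ≤ (x + 1).choose 2 := fun x => by
    have := R4h.two_choose x
    nlinarith
  have h9 : ∑ j, v j + ∑ j, ((v j + 1).choose 2 - v j) = ∑ j, (v j + 1).choose 2 := by
    rw [← Finset.sum_add_distrib]
    refine Finset.sum_congr rfl fun j _ => ?_
    have := h8 (v j)
    omega
  have i0 := h8 (v 0)
  have i1 := h8 (v 1)
  have i2 := h8 (v 2)
  generalize ∑ j, ((v j + 1).choose 2 - v j) = A at h7 h9
  generalize ∑ j, (v j + 1).choose 2 = B at h9 ⊢
  generalize ∑ j, v j = C at h9 ⊢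
  generalize (v 0 + 1).choose 2 = a0 at *
  generalize (v 1 + 1).choose 2 = a1 at *
  generalize (v 2 + 1).choose 2 = a2 at *
  omega

/-- The lower bound. -/
theorem le_dim {K : Type} [Field K] {n : ℕ} (w : Fin n → ℕ) (P : Fin n → Fin 2 → K) (e : ℕ) :
    (e + 2).choose 2 ≤ Module.finrank K ↥(H248R5.forms w P e) + ∑ i, (w i + 1).choose 2 := by
  have hfin : Module.Finite K ↥(homogeneousSubmodule (Fin 3) K e) :=
    Module.Finite.iff_fg.2 (homogeneousSubmodule_fg _ _ e)
  have hq : ∀ i, Module.Finite K (H248R5.Quo K (w i)) := fun i => H248R5.quo_finite (w i)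
  have h1 := LinearMap.finrank_range_add_finrank_ker (H248R5.ev w P e)
  have h2 : Module.finrank K ↥(H248R5.forms w P e) =
      Module.finrank K ↥(LinearMap.ker (H248R5.ev w P e)) := by
    rw [H248R5.forms_eq_map]
    exact LinearEquiv.finrank_eq (Submodule.equivSubtypeMap _ _).symm
  have h3 : Module.finrank K (∀ i, H248R5.Quo K (w i)) ≤ ∑ i, (w i + 1).choose 2 := by
    rw [Module.finrank_pi_fintype]
    exact Finset.sum_le_sum fun i _ => H248R5.finrank_quo_le (w i)
  have h4 := H248R5.le_finrank_forms (K := K) e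
  have h5 := Submodule.finrank_le (LinearMap.range (H248R5.ev w P e))
  omega

theorem exists_sort {s : ℕ} (w : Fin s → ℕ) :
    ∃ σ : Equiv.Perm (Fin s), Antitone (fun j => w (σ j)) := by
  refine ⟨Tuple.sort (fun j => OrderDual.toDual (w j)), ?_⟩
  intro a b hab
  exact Tuple.monotone_sort (fun j => OrderDual.toDual (w j)) hab

theorem sum_wcr {s : ℕ} (e : ℕ) (i : Fin 3 → Fin s) (hi : Function.Injective i) (w : Fin s → ℕ)
    (g : ℕ → ℕ) :
    ∑ j, g (wcr e i w j) + (g (w (i 0)) + g (w (i 1)) + g (w (i 2))) =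
      ∑ j, g (w j) + (g (e - (w (i 1) + w (i 2))) + g (e - (w (i 0) + w (i 2))) +
        g (e - (w (i 0) + w (i 1)))) := by
  classical
  have h01 : i 1 ≠ i 0 := fun h => by have := hi h; simp at this
  have h02 : i 2 ≠ i 0 := fun h => by have := hi h; simp at this
  have h12 : i 2 ≠ i 1 := fun h => by have := hi h; simp at this
  have m1 : i 1 ∈ Finset.univ.erase (i 0) := Finset.mem_erase.2 ⟨h01, Finset.mem_univ _⟩
  have m2 : i 2 ∈ (Finset.univ.erase (i 0)).erase (i 1) :=
    Finset.mem_erase.2 ⟨h12, Finset.mem_erase.2 ⟨h02, Finset.mem_univ _⟩⟩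
  have key : ∀ f : Fin s → ℕ, ∑ j, f j = f (i 0) + (f (i 1) + (f (i 2) +
      ∑ j ∈ ((Finset.univ.erase (i 0)).erase (i 1)).erase (i 2), f j)) := fun f => by
    rw [Finset.add_sum_erase _ f m2, Finset.add_sum_erase _ f m1,
      Finset.add_sum_erase _ f (Finset.mem_univ _)]
  rw [key (fun j => g (wcr e i w j)), key (fun j => g (w j))]
  have e0 : wcr e i w (i 0) = e - (w (i 1) + w (i 2)) := by
    unfold wcr
    rw [if_pos rfl]
  have e1 : wcr e i w (i 1) = e - (w (i 0) + w (i 2)) := by
    unfold wcr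
    rw [if_neg h01, if_pos rfl]
  have e2 : wcr e i w (i 2) = e - (w (i 0) + w (i 1)) := by
    unfold wcr
    rw [if_neg h02, if_neg h12, if_pos rfl]
  have e3 : ∑ j ∈ ((Finset.univ.erase (i 0)).erase (i 1)).erase (i 2), g (wcr e i w j) =
      ∑ j ∈ ((Finset.univ.erase (i 0)).erase (i 1)).erase (i 2), g (w j) := by
    refine Finset.sum_congr rfl fun j hj => ?_
    rw [Finset.mem_erase, Finset.mem_erase, Finset.mem_erase] at hj
    unfold wcr
    rw [if_neg hj.2.2.1, if_neg hj.2.1, if_neg hj.1]
  simp only [e0, e1, e2, e3]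
  omega

theorem deg_pos {K : Type} [Field K] {G : MvPolynomial (Fin 3) K} {e : ℕ}
    (hG : Irreducible G) (hGe : G.IsHomogeneous e) : 0 < e := by
  rcases Nat.eq_zero_or_pos e with rfl | h
  · exfalso
    have h1 : G.totalDegree = 0 := by
      have := hGe.totalDegree_le
      omega
    rw [MvPolynomial.totalDegree_eq_zero_iff_eq_C] at h1
    rw [h1] at hG
    by_cases h2 : MvPolynomial.coeff 0 G = 0
    · rw [h2, map_zero] at hG
      exact hG.ne_zero rfl
    · exact hG.not_isUnit ((isUnit_iff_ne_zero.2 h2).map MvPolynomial.C)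
  · exact h

theorem prime_main {K : Type} [Field K] [CharZero K] {r m B : ℕ} (hm : 0 < m)
    (hB : B = 131072 * (4 * m ^ 2 + 8 * m + 5) ^ 4) :
    ∀ (n e : ℕ), e ≤ n → ∀ (P : Fin (r + 4) → Fin 2 → K)
      (_ : AlgebraicIndependent ℚ (fun ij : Fin (r + 4) × Fin 2 => P ij.1 ij.2))
      (w : Fin (r + 4) → ℕ) (_ : (Finset.univ.filter fun i => m < w i).card ≤ 5)
      (G : MvPolynomial (Fin 3) K) (_ : Irreducible G) (_ : G.IsHomogeneous e)
      (_ : ∀ j, Ord (aff (P j)) (w j) G)
      (_ : B + ∑ j, (w j + 1).choose 2 + 3 * e ≤ (e + 2).choose 2 + ∑ j, w j ∨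
        B ≤ Module.finrank K ↥(VS (fun j => aff (P j)) w e)),
      Module.finrank K ↥(VS (fun j => aff (P j)) w e) + ∑ j, (w j + 1).choose 2 =
        (e + 2).choose 2 := by
  classical
  have n0 : ((0 : Fin (r + 4)) : ℕ) = 0 := rfl
  have n1 : ((1 : Fin (r + 4)) : ℕ) = 1 := Nat.mod_eq_of_lt (show 1 < r + 4 by omega)
  have n2 : ((2 : Fin (r + 4)) : ℕ) = 2 := Nat.mod_eq_of_lt (show 2 < r + 4 by omega)
  have n3 : ((3 : Fin (r + 4)) : ℕ) = 3 := Nat.mod_eq_of_lt (show 3 < r + 4 by omega)
  have hB100 : 100 ≤ B := by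
    rw [hB]
    have h1 : 1 ≤ (4 * m ^ 2 + 8 * m + 5) ^ 4 := Nat.one_le_pow _ _ (by omega)
    omega
  intro n
  induction n with
  | zero =>
    intro e he P hP w hw G hG hGe hord hbig
    have := deg_pos hG hGe
    omega
  | succ n ih =>
    intro e he P hP w hw G hG hGe hord hbig
    have he0 := deg_pos hG hGe
    obtain ⟨σ, hσ⟩ := exists_sort w
    obtain ⟨v, hv⟩ : ∃ v : Fin (r + 4) → ℕ, v = fun j => w (σ j) := ⟨_, rfl⟩
    rw [← hv] at hσ
    have hlow := le_dim w P e
    rw [← vs_eq_forms] at hlow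
    have hsum : ∀ g : ℕ → ℕ, ∑ j, g (v j) = ∑ j, g (w j) := fun g => by
      rw [hv]
      exact Equiv.sum_comp σ (fun j => g (w j))
    have h21 : v 1 ≤ v 0 := hσ (by rw [Fin.le_def, n1, n0]; omega)
    have h32 : v 2 ≤ v 1 := hσ (by rw [Fin.le_def, n1, n2]; omega)
    -- the sums of the three largest
    have hthree : ∀ g : ℕ → ℕ, g (v 0) + g (v 1) + g (v 2) ≤ ∑ j, g (v j) := by
      intro g
      have k1 : (Fin.succ (0 : Fin (r + 3))) = (1 : Fin (r + 4)) := Fin.ext (by rw [n1]; rfl)
      have k2 : (Fin.succ (Fin.succ (0 : Fin (r + 2)))) = (2 : Fin (r + 4)) := Fin.ext (by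
        rw [n2]; rfl)
      rw [Fin.sum_univ_succ, Fin.sum_univ_succ, Fin.sum_univ_succ, k1, k2]
      omega
    rcases Nat.lt_or_ge e (v 0 + v 1 + v 2) with hlt | hge
    · -- a quadratic transformation
      obtain ⟨i, hi⟩ : ∃ i : Fin 3 → Fin (r + 4), i = fun k => σ ⟨k.1, by omega⟩ := ⟨_, rfl⟩
      have hinj : Function.Injective i := by
        intro a b hab
        rw [hi] at hab
        have h1 := σ.injective hab
        exact Fin.ext (Fin.mk.inj h1)
      have w0 : w (i 0) = v 0 := by
        rw [hi, hv]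
        rfl
      have w1 : w (i 1) = v 1 := by
        rw [hi, hv]
        show w (σ _) = w (σ 1)
        congr 2
      have w2 : w (i 2) = v 2 := by
        rw [hi, hv]
        show w (σ _) = w (σ 2)
        congr 2
      have he2 : 2 ≤ e := by
        by_contra hcon
        have he1 : e = 1 := by omega
        subst he1
        have c3 : (1 + 2).choose 2 = 3 := rfl
        have h1 : ∑ j, w j ≤ ∑ j, (w j + 1).choose 2 := Finset.sum_le_sum fun j _ => by
          have := R4h.two_choose (w j)
          nlinarith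
        have h2 : Module.finrank K ↥(VS (fun j => aff (P j)) w 1) ≤ 3 := by
          have hfin : Module.Finite K ↥(homogeneousSubmodule (Fin 3) K 1) :=
            Module.Finite.iff_fg.2 (homogeneousSubmodule_fg _ _ 1)
          have h3 := Submodule.finrank_mono (R := K)
            (inf_le_left : VS (fun j => aff (P j)) w 1 ≤ homogeneousSubmodule (Fin 3) K 1)
          rw [H248R6.finrank_homog] at h3
          exact h3
        rcases hbig with h | h
        · omega
        · omega
      obtain ⟨p1, p2, p3, P', G', hP', hG', hGe', hord', hdim⟩ :=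
        t_step K (r + 4) P hP i hinj e G w he2 hG hGe hord
      rw [w0, w1, w2] at hGe' hdim
      rw [w0, w1] at p1
      rw [w0, w2] at p2
      rw [w1, w2] at p3
      obtain ⟨e', he'⟩ : ∃ e', e' = 2 * e - (v 0 + v 1 + v 2) := ⟨_, rfl⟩
      rw [← he'] at hGe' hdim
      have he'0 := deg_pos hG' hGe'
      obtain ⟨w', hw'⟩ : ∃ w', w' = wcr e i w := ⟨_, rfl⟩
      rw [← hw'] at hord' hdim
      have s1 := sum_wcr e i hinj w (fun x => (x + 1).choose 2)
      have s2 := sum_wcr e i hinj w (fun x => x)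
      rw [← hw', w0, w1, w2] at s1 s2
      have hle : ∀ j, w' j ≤ w j := by
        intro j
        rw [hw']
        unfold wcr
        split_ifs with c0 c1 c2
        · rw [c0, w0, w1, w2]
          omega
        · rw [c1, w0, w1, w2]
          omega
        · rw [c2, w0, w1, w2]
          omega
        · exact le_rfl
      -- the invariants
      obtain ⟨a, ha⟩ : ∃ a, a = e - (v 1 + v 2) := ⟨_, rfl⟩
      obtain ⟨b, hb⟩ : ∃ b, b = e - (v 0 + v 2) := ⟨_, rfl⟩
      obtain ⟨c, hc⟩ : ∃ c, c = e - (v 0 + v 1) := ⟨_, rfl⟩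
      obtain ⟨t, ht⟩ : ∃ t, t = v 0 + v 1 + v 2 - e := ⟨_, rfl⟩
      rw [← ha, ← hb, ← hc] at s1 s2
      have q0 : v 0 = a + t := by omega
      have q1 : v 1 = b + t := by omega
      have q2 : v 2 = c + t := by omega
      have q3 : e = a + b + c + 2 * t := by omega
      have q4 : e' = a + b + c + t := by omega
      have z0 := R4h.two_choose (v 0)
      have z1 := R4h.two_choose (v 1)
      have z2 := R4h.two_choose (v 2)
      have za := R4h.two_choose a
      have zb := R4h.two_choose b
      have zc := R4h.two_choose c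
      have ze := H932R7.two_choose e
      have ze' := H932R7.two_choose e'
      have hinv : (e' + 2).choose 2 + ((v 0 + 1).choose 2 + (v 1 + 1).choose 2 +
          (v 2 + 1).choose 2) = (e + 2).choose 2 + ((a + 1).choose 2 + (b + 1).choose 2 +
          (c + 1).choose 2) := by
        have h1 : (e' + 1) * (e' + 2) + (v 0 * (v 0 + 1) + v 1 * (v 1 + 1) + v 2 * (v 2 + 1)) =
            (e + 1) * (e + 2) + (a * (a + 1) + b * (b + 1) + c * (c + 1)) := by
          rw [q0, q1, q2, q3, q4]
          ring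
        omega
      have hmain := ih e' (by omega) P' hP' w' (by
        refine le_trans (Finset.card_le_card fun j hj => ?_) hw
        rw [Finset.mem_filter] at hj ⊢
        exact ⟨hj.1, lt_of_lt_of_le hj.2 (hle j)⟩) G' hG' hGe' hord' (by
        rcases hbig with h | h
        · left
          omega
        · right
          exact h.trans hdim)
      omega
    · -- the reduced case
      have hP2 : AlgebraicIndependent ℚ (fun ij : Fin (r + 4) × Fin 2 => P (σ ij.1) ij.2) :=
        hP.comp (fun ij : Fin (r + 4) × Fin 2 => (σ ij.1, ij.2)) (by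
          rintro ⟨a, b⟩ ⟨a', b'⟩ h
          rw [Prod.mk.injEq] at h
          rw [Prod.mk.injEq]
          exact ⟨σ.injective h.1, h.2⟩)
      have hne : ∀ F : MvPolynomial (Fin (r + 4) × Fin 2) ℚ, F ≠ 0 →
          MvPolynomial.aeval (fun ij : Fin (r + 4) × Fin 2 => P (σ ij.1) ij.2) F ≠ 0 :=
        fun F hF h0 => hF (hP2.eq_zero_of_aeval_eq_zero F h0)
      have hvs : VS (fun j => aff (P (σ j))) v e = VS (fun j => aff (P j)) w e := by
        rw [hv]
        exact vs_perm (fun j => aff (P j)) w e σ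
      have h5 : ∀ j : Fin (r + 4), 5 ≤ (j : ℕ) → v j ≤ m := by
        intro j hj
        by_contra hcon
        push Not at hcon
        have h1 : (Finset.univ.filter fun a : Fin (r + 4) => a ≤ j).card ≤
            (Finset.univ.filter fun i => m < w i).card := by
          refine Finset.card_le_card_of_injOn σ (fun a ha => ?_) σ.injective.injOn
          rw [Finset.mem_coe, Finset.mem_filter] at ha ⊢
          refine ⟨Finset.mem_univ _, ?_⟩
          have h2 := hσ ha.2
          rw [hv] at h2 hcon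
          exact lt_of_lt_of_le hcon h2
        have h2 : (Finset.univ.filter fun a : Fin (r + 4) => a ≤ j).card = (j : ℕ) + 1 := by
          have : (Finset.univ.filter fun a : Fin (r + 4) => a ≤ j) = Finset.Iic j := by
            ext a
            simp
          rw [this, Fin.card_Iic]
        omega
      -- three points
      obtain ⟨v3, hv3⟩ : ∃ v3 : Fin (r + 4) → ℕ, v3 = fun j : Fin (r + 4) => if (j : ℕ) < 3 then v j else 0 :=
        ⟨_, rfl⟩
      have hv3a : Antitone v3 := by
        intro a b hab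
        rw [hv3]
        simp only
        have := hσ hab
        rw [Fin.le_def] at hab
        split_ifs <;> omega
      have t0 : v3 0 = v 0 := by rw [hv3]; simp only [n0]; rfl
      have t1 : v3 1 = v 1 := by rw [hv3]; simp only [n1]; rfl
      have t2 : v3 2 = v 2 := by rw [hv3]; simp only [n2]; rfl
      have t3 : v3 3 = 0 := by rw [hv3]; simp only [n3]; rfl
      obtain ⟨F3, hF3, hF3'⟩ := T.big_three K hv3a t3
      have hd3 := hF3' (fun j => P (σ j)) (hne F3 hF3) e (by rw [t0, t1, t2]; exact hge)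
      have hd3' : Module.finrank K ↥(VS (fun j => aff (P (σ j))) v3 e) =
          (e + 2).choose 2 - ∑ j, (v3 j + 1).choose 2 := by
        rw [vs_eq_forms]
        exact hd3
      have hmono : Module.finrank K ↥(VS (fun j => aff (P j)) w e) ≤
          Module.finrank K ↥(VS (fun j => aff (P (σ j))) v3 e) := by
        rw [← hvs]
        have hf := vs_fin (fun j => aff (P (σ j))) v3 e
        refine Submodule.finrank_mono (vs_mono _ e fun j => ?_)
        rw [hv3]
        simp only
        split_ifs <;> omega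
      have hthree3 : (v 0 + 1).choose 2 + (v 1 + 1).choose 2 + (v 2 + 1).choose 2 ≤
          ∑ j, (v3 j + 1).choose 2 := by
        have k1 : (Fin.succ (0 : Fin (r + 3))) = (1 : Fin (r + 4)) := Fin.ext (by rw [n1]; rfl)
        have k2 : (Fin.succ (Fin.succ (0 : Fin (r + 2)))) = (2 : Fin (r + 4)) := Fin.ext (by
          rw [n2]; rfl)
        rw [Fin.sum_univ_succ, Fin.sum_univ_succ, Fin.sum_univ_succ, k1, k2, t0, t1, t2]
        omega
      have z0 := R4h.two_choose (v 0)
      have z1 := R4h.two_choose (v 1)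
      have z2 := R4h.two_choose (v 2)
      have ze := H932R7.two_choose e
      obtain ⟨F, hF, hF'⟩ := T.big5 K hm hσ h5
      have hE := hF' (fun j => P (σ j)) (hne F hF) e hge (Or.inl (by
        rw [← hB]
        rcases hbig with h | h
        · -- large genus
          have g1 := hsum (fun x => (x + 1).choose 2)
          have g2 := hsum (fun x => x)
          have g3 : ∑ j, v j + (v 0 + 1).choose 2 + (v 1 + 1).choose 2 + (v 2 + 1).choose 2 ≤
              ∑ j, (v j + 1).choose 2 + (v 0 + v 1 + v 2) :=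
            three_le v hthree
          omega
        · omega))
      have hGmem : G ∈ VS (fun j => aff (P j)) w e := by
        unfold VS
        rw [Submodule.mem_inf, Submodule.restrictScalars_mem, Ideal.mem_iInf,
          mem_homogeneousSubmodule]
        exact ⟨hGe, fun j => (hord j).1⟩
      have hpos : 0 < Module.finrank K ↥(VS (fun j => aff (P j)) w e) := by
        have hf := vs_fin (fun j => aff (P j)) w e
        rw [Module.finrank_pos_iff]
        exact ⟨⟨⟨G, hGmem⟩, 0, fun h => hG.ne_zero (congrArg Subtype.val h)⟩⟩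
      have hE' : Module.finrank K ↥(VS (fun j => aff (P j)) w e) =
          (e + 2).choose 2 - ∑ j, (v j + 1).choose 2 := by
        rw [← hvs, vs_eq_forms]
        exact hE
      have g1 := hsum (fun x => (x + 1).choose 2)
      omega

end Pool.Agent.W609.CR
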